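import Pool.Agent.H38.NP.Defs

/-!
Three-sided stable marriage with lexicographically cyclic preferences.
Types: `0` men, `1` women, `2` dogs.
-/

namespace Pool.Agent.H38.Lex

/-- Size `n`, table of primary ranks, table of secondary ranks. -/
abbrev Inst := ℕ × List (List (List ℕ)) × List (List (List ℕ))

/-- The rank that agent `i` of type `t` gives to agent `j` in table `T` (smaller is better). -/
def rk (T : List (List (List ℕ))) (t : Fin 3) (i j : ℕ) : ℕ := ((T.getD t []).getD i []).getD j 0

/-- `n ≥ 3` and all orders are strict. -/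
def Valid (I : Inst) : Prop :=
  3 ≤ I.1 ∧ ∀ (t : Fin 3) (i : Fin I.1), (Function.Injective fun j : Fin I.1 => rk I.2.1 t i j) ∧
    Function.Injective fun j : Fin I.1 => rk I.2.2 t i j

/-- The member of type `t` of the triple `x` prefers its partners in `x` to those in `y`:
first by the agent of type `t + 1`, then by the agent of type `t + 2`. -/
def Prefers (I : Inst) (t : Fin 3) (x y : Fin 3 → Fin I.1) : Prop :=
  rk I.2.1 t (x t) (x (t + 1)) < rk I.2.1 t (x t) (y (t + 1)) ∨
    (x (t + 1) = y (t + 1) ∧ rk I.2.2 t (x t) (x (t + 2)) < rk I.2.2 t (x t) (y (t + 2)))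

/-- There are `n` triples covering every agent once such that no triple blocks. -/
def HasStable (I : Inst) : Prop :=
  ∃ M : Fin I.1 → Fin 3 → Fin I.1, (∀ t, Function.Bijective fun k => M k t) ∧
    ∀ x : Fin 3 → Fin I.1, ¬ ∀ t k, M k t = x t → Prefers I t x (M k)

end Pool.Agent.H38.Lex
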