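import Pool.Agent.H38.Lex.Defs
import Pool.Agent.H36.Gr

/-!
From incomplete lists to complete lexicographically cyclic instances.
-/

namespace Pool.Agent.H38.Lex

open Pool.Agent.H38.NP Pool.Agent.H36.Gr

section
variable {A : Type}

def Pf (P S : Fin 3 → A → A → ℕ) (o : A → ℕ) (t : Fin 3) (x y : Fin 3 → A) : Prop :=
  P t (x t) (x (t + 1)) < P t (x t) (y (t + 1)) ∨
    (P t (x t) (x (t + 1)) = P t (x t) (y (t + 1)) ∧ o (x (t + 1)) < o (y (t + 1))) ∨
    (x (t + 1) = y (t + 1) ∧ (S t (x t) (x (t + 2)) < S t (x t) (y (t + 2)) ∨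
      (S t (x t) (x (t + 2)) = S t (x t) (y (t + 2)) ∧ o (y (t + 2)) < o (x (t + 2)))))

def St (V : A → Prop) (pf : Fin 3 → (Fin 3 → A) → (Fin 3 → A) → Prop) (M : Set (Fin 3 → A)) : Prop :=
  (∀ x ∈ M, ∀ t, V (x t)) ∧ (∀ t a, V a → ∃ x ∈ M, x t = a) ∧
    (∀ x ∈ M, ∀ y ∈ M, ∀ t, x t = y t → x = y) ∧
    ∀ x, (∀ t, V (x t)) → ∃ t, ∃ y ∈ M, y t = x t ∧ ¬ pf t x y

variable [Inhabited A] [DecidableEq A]

def tab (U : List A) (f : ℕ → A → ℕ → ℕ) : List (List (List ℕ)) :=
  (List.range 3).map fun t => U.map fun a => (List.range U.length).map fun j => f t a j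

def mkI (U : List A) (P S : ℕ → A → A → ℕ) : Inst :=
  (U.length, tab U fun t a j => P t a (U.getD j default) * U.length + j,
    tab U fun t a j => S t a (U.getD j default) * U.length + (U.length - 1 - j))

omit [DecidableEq A] in
theorem rk_tab {U : List A} {f} (t : Fin 3) (i j : Fin U.length) :
    rk (tab U f) t i j = f t (code U i) j := by
  simp [rk, tab, code]

theorem lex_lt {a b i j n : ℕ} (hi : i < n) (hj : j < n) :
    a * n + i < b * n + j ↔ a < b ∨ (a = b ∧ i < j) := by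
  rcases lt_trichotomy a b with h | rfl | h
  · have := Nat.mul_le_mul_right n (show a + 1 ≤ b from h)
    simp only [h, true_or, iff_true]; nlinarith
  · simp
  · have := Nat.mul_le_mul_right n (show b + 1 ≤ a from h)
    simp only [h.not_gt, h.ne', false_and, or_self, iff_false]; nlinarith

omit [DecidableEq A] in
theorem valid_mkI {U : List A} (h : 3 ≤ U.length) (P S) : Valid (mkI U P S) :=
  ⟨h, fun t i => ⟨fun j k e => by
    simp only [mkI, rk_tab] at e
    have := congrArg (· % U.length) e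
    have hj : j.val < U.length := j.2
    have hk : k.val < U.length := k.2
    simp only [Nat.mul_add_mod_self_right] at this
    rw [Nat.mod_eq_of_lt hj, Nat.mod_eq_of_lt hk] at this
    exact Fin.ext this,
  fun j k e => by
    simp only [mkI, rk_tab] at e
    have := congrArg (· % U.length) e
    have hj : j.val < U.length := j.2
    have hk : k.val < U.length := k.2
    simp only [Nat.mul_add_mod_self_right] at this
    rw [Nat.mod_eq_of_lt (by omega), Nat.mod_eq_of_lt (by omega)] at this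
    exact Fin.ext (by omega)⟩⟩

theorem stable_iff {U : List A} (nd : U.Nodup) (P S : ℕ → A → A → ℕ) : HasStable (mkI U P S) ↔
    ∃ M, St (· ∈ U) (Pf (fun t => P t) (fun t => S t) U.idxOf) M := by
  have io : ∀ v, U.idxOf (code U v) = v := fun v => by rw [code_eq, nd.idxOf_getElem]
  have pf : ∀ t (x y : Fin 3 → Fin U.length), Prefers (mkI U P S) t x y ↔
      Pf (fun t => P t) (fun t => S t) U.idxOf t (code U ∘ x) (code U ∘ y) := fun t x y => by
    have a := (x (t + 2)).2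
    have b := (y (t + 2)).2
    simp only [Prefers, Pf, mkI, rk_tab, Function.comp, io, (code_inj nd).eq_iff]
    rw [lex_lt (x _).2 (y _).2, lex_lt (by omega) (by omega), or_assoc,
      show U.length - 1 - x (t + 2) < U.length - 1 - y (t + 2) ↔ (y (t + 2)).val < x (t + 2) by omega]
    rfl
  constructor
  · rintro ⟨M, h1, h2⟩
    refine ⟨{x | ∃ k, x = code U ∘ M k}, ?_, fun t a ha => ?_, ?_, fun x hx => ?_⟩
    · rintro _ ⟨k, rfl⟩ t; exact code_mem _ _
    · obtain ⟨v, rfl⟩ := code_surj ha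
      obtain ⟨k, rfl⟩ := (h1 t).2 v
      exact ⟨_, ⟨k, rfl⟩, rfl⟩
    · rintro _ ⟨k, rfl⟩ _ ⟨l, rfl⟩ t e
      rw [(h1 t).1 (code_inj nd e)]
    · choose z hz using fun t => code_surj (hx t)
      obtain rfl : x = code U ∘ z := funext fun t => (hz t).symm
      have := h2 z
      push Not at this
      obtain ⟨t, k, e, h⟩ := this
      exact ⟨t, _, ⟨k, rfl⟩, congrArg (code U) e, fun h' => h ((pf _ _ _).2 h')⟩
  · rintro ⟨M, h1, h2, h3, h4⟩
    choose g g1 g2 using fun k => h2 0 _ (code_mem U k)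
    choose z hz using fun k t => code_surj (h1 _ (g1 k) t)
    have e : ∀ k, code U ∘ z k = g k := fun k => funext (hz k)
    have inj : ∀ t, Function.Injective fun k => z k t := fun t k l e' => code_inj nd (by
      rw [← g2, ← g2, h3 _ (g1 k) _ (g1 l) t (by rw [← hz, ← hz]; exact congrArg _ e')])
    have bij := fun t => (Finite.injective_iff_bijective).1 (inj t)
    refine ⟨z, bij, fun x hx => ?_⟩
    obtain ⟨t, y, hy, e1, e2⟩ := h4 (code U ∘ x) fun t => code_mem _ _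
    obtain ⟨k, hk⟩ := (bij t).2 (x t)
    obtain rfl : y = g k := h3 _ hy _ (g1 k) t (by rw [e1, ← hz]; exact congrArg _ hk.symm)
    exact e2 (e k ▸ (pf _ _ _).1 (hx t k hk))

end

variable {C : Type} [DecidableEq C]

def kP (ck : ℕ → C → C → ℕ) (t : ℕ) (x y : ℕ × C) : ℕ :=
  if x.1 = 0 then (if y.1 = 0 then ck t x.2 y.2 else if y = (1, x.2) then 2 else 3)
  else if y = ((x.1 + 1) % 3, x.2) then 0 else if y.1 = (if x.1 = 2 ∧ t = 2 then 2 else 1) then 1 else 2

def kS (_ : ℕ) (x y : ℕ × C) : ℕ := if y = ((x.1 + 2) % 3, x.2) then 0 else 1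

def sg (t : Fin 3) (a : C) (s : Fin 3) : ℕ × C := ((s - t).val, a)

def co (e : Fin 3 → C) (s : Fin 3) : ℕ × C := (0, e s)

def Acc (V : C → Prop) (ck : ℕ → C → C → ℕ) (e : Fin 3 → C) : Prop :=
  ∀ t : Fin 3, V (e t) ∧ ck t (e t) (e (t + 1)) < 2

def Ker (V : C → Prop) (ck : ℕ → C → C → ℕ) (d : ℕ) (T : Set (Fin 3 → C)) : Prop :=
  (∀ e ∈ T, Acc V ck e) ∧ (∀ e ∈ T, ∀ f ∈ T, ∀ t, e t = f t → e = f) ∧
    ∀ f, Acc V ck f → f ∈ T ∨ ∃ t : Fin 3, ∃ e ∈ T, e t = f t ∧
      ck t (e t) (e (t + 1)) + d ≤ ck t (f t) (f (t + 1))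

variable {V : C → Prop} {ck : ℕ → C → C → ℕ} {o : ℕ × C → ℕ}

theorem ext3 {A : Type} {x y : Fin 3 → A} (t : Fin 3) (h0 : x t = y t) (h1 : x (t + 1) = y (t + 1))
    (h2 : x (t + 2) = y (t + 2)) : x = y := by
  funext s; fin_cases t <;> fin_cases s <;> assumption

omit [DecidableEq C] in
theorem sg1 (t s : Fin 3) (a : C) : sg t a (s + 1) = (((sg t a s).1 + 1) % 3, (sg t a s).2) :=
  Prod.ext (by simp only [sg]; revert s t; decide) rfl

omit [DecidableEq C] in
theorem sg2 (t s : Fin 3) (a : C) : sg t a (s + 2) = (((sg t a s).1 + 2) % 3, (sg t a s).2) :=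
  Prod.ext (by simp only [sg]; revert s t; decide) rfl

theorem top {x z : Fin 3 → ℕ × C} {s : Fin 3} (h0 : (x s).1 ≠ 0)
    (h1 : x (s + 1) = (((x s).1 + 1) % 3, (x s).2)) (h2 : x (s + 2) = (((x s).1 + 2) % 3, (x s).2))
    (e : z s = x s) (h : ¬ Pf (fun t => kP ck t) (fun t => kS t) o s x z) : z = x := by
  simp only [Pf, kP, kS, if_neg h0, ← h1, ← h2, if_true, not_or, not_and] at h
  have a : z (s + 1) = x (s + 1) := by
    by_contra c
    have := h.1
    rw [if_neg c] at this; split_ifs at this <;> omega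
  refine ext3 s e a (by_contra fun c => ?_)
  simpa [c] using (h.2.2 a.symm).1

theorem gsound (h2 : ∀ t a b, ck t a b ≠ 2) {M}
    (h : St (fun x => x.1 < 3 ∧ V x.2) (Pf (fun t => kP ck t) (fun t => kS t) o) M) : ∃ T, Ker V ck 0 T := by
  obtain ⟨m1, m2, m3, m4⟩ := h
  have k1 : ∀ y ∈ M, ∀ t : Fin 3, (y t).1 = 0 → y = sg t (y t).2 ∨
      ((y (t + 1)).1 = 0 ∧ ck t (y t).2 (y (t + 1)).2 < 2) := fun y hy t h0 => by
    obtain ⟨s, z, hz, e1, e2⟩ := m4 (sg t (y t).2) fun s => ⟨(s - t).2, (m1 y hy t).2⟩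
    have e0 : y t = sg t (y t).2 t := Prod.ext (by simp [sg, h0]) rfl
    by_cases hs : s = t
    · subst hs
      obtain rfl := m3 z hz y hy s (e1.trans e0.symm)
      simp only [Pf, kP, kS, sg, sub_self, add_sub_cancel_left, not_or, not_and] at e2
      have := h2 s (z s).2 (z (s + 1)).2
      by_cases c1 : z (s + 1) = (1, (z s).2)
      · refine .inl (ext3 s e0 (by simpa [sg] using c1) ?_)
        by_contra c2
        have := (e2.2.2 c1.symm).1
        simp [sg] at c2 this; exact c2 this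
      · have := e2.1
        by_cases c2 : (z (s + 1)).1 = 0 <;> simp [c1, c2] at this
        exact .inr ⟨c2, by omega⟩
    · have : z = sg t (y t).2 := top (by simpa [sg, sub_eq_zero] using hs) (sg1 _ _ _) (sg2 _ _ _) e1 e2
      exact .inl (m3 _ hy _ (this ▸ hz) t e0)
  refine ⟨{e | co e ∈ M}, fun e he t => ⟨(m1 _ he t).2, ?_⟩, fun e he f hf t h => ?_, fun f hf => .inr ?_⟩
  · rcases k1 _ he t rfl with h | h
    · simpa [co, sg] using congrFun h (t + 1)
    · exact h.2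
  · exact funext fun s => (Prod.ext_iff.1 (congrFun (m3 _ he _ hf t (by simp [co, h])) s)).2
  · obtain ⟨t, y, hy, e1, e2⟩ := m4 (co f) fun t => ⟨by simp [co], (hf t).1⟩
    have := (hf t).2
    have a : (y (t + 1)).1 = 0 ∧ ck t (f t) (y (t + 1)).2 ≤ ck t (f t) (f (t + 1)) := by
      have := (not_or.1 e2).1
      simp only [kP, co, if_true] at this
      split_ifs at this <;> omega
    have b : (y (t + 2)).1 = 0 := by
      rcases k1 y hy _ a.1 with h | h
      · have := congrFun h t; rw [e1] at this; fin_cases t <;> simp [co, sg] at this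
      · simpa [add_assoc] using h.1
    refine ⟨t, fun s => (y s).2, ?_, by simp [e1, co], by simpa [e1, co] using a.2⟩
    have : co (fun s => (y s).2) = y :=
      ext3 t (by simp [co, e1]) (Prod.ext a.1.symm rfl) (Prod.ext b.symm rfl)
    exact (this ▸ hy : co _ ∈ M)

def t1 (e : Fin 3 → C) : Fin 3 → ℕ × C := ![(2, e 1), (1, e 0), (2, e 0)]

def t2 (e : Fin 3 → C) : Fin 3 → ℕ × C := ![(1, e 2), (2, e 2), (1, e 1)]

def W (e : Fin 3 → C) (t : Fin 3) (k : ℕ) : Fin 3 → ℕ × C :=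
  if k = 0 then co e else if (k = 1 ↔ t = 1) then t1 e else t2 e

omit [DecidableEq C] in
theorem W_self (e : Fin 3 → C) (t k : Fin 3) : W e t k t = (k.val, e (t - k)) := by
  fin_cases t <;> fin_cases k <;> rfl

theorem gcomplete (h2 : ∀ t a b, ck t a b ≠ 2) {T} (h : Ker V ck 1 T) :
    ∃ M, St (fun x => x.1 < 3 ∧ V x.2) (Pf (fun t => kP ck t) (fun t => kS t) o) M := by
  obtain ⟨k1, k2, k3⟩ := h
  let M : Set (Fin 3 → ℕ × C) := {y | (∃ t a, V a ∧ (¬ ∃ e ∈ T, e t = a) ∧ y = sg t a) ∨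
    ∃ e ∈ T, y = co e ∨ y = t1 e ∨ y = t2 e}
  have cl : ∀ y ∈ M, ∀ t u : Fin 3, (t - u).val = (y t).1 → ((¬ ∃ e ∈ T, e u = (y t).2) ∧ y = sg u (y t).2) ∨
      ∃ e ∈ T, e u = (y t).2 ∧ y = W e t (y t).1 := by
    rintro y (⟨s, a, -, h, rfl⟩ | ⟨e, he, h⟩) t u hu
    · obtain rfl : u = s := by simpa [sg, Fin.val_inj] using hu
      exact .inl ⟨h, rfl⟩
    · refine .inr ⟨e, he, ?_⟩
      rcases h with rfl | rfl | rfl <;> fin_cases t <;> fin_cases u <;>
        first | exact ⟨rfl, rfl⟩ | exact absurd hu (by simp [co, t1, t2]; try decide)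
  have m1 : ∀ y ∈ M, ∀ t, (y t).1 < 3 ∧ V (y t).2 := by
    rintro y (⟨s, a, h, -, rfl⟩ | ⟨e, he, rfl | rfl | rfl⟩) t
    · exact ⟨(t - s).2, h⟩
    all_goals fin_cases t <;> exact ⟨by simp [co, t1, t2], (k1 e he _).1⟩
  have m2 : ∀ t (a : ℕ × C), a.1 < 3 ∧ V a.2 → ∃ y ∈ M, y t = a := by
    rintro t ⟨k, a⟩ ⟨hk, ha⟩
    by_cases h : ∃ e ∈ T, e (t - ⟨k, hk⟩) = a
    · obtain ⟨e, he, h⟩ := h
      exact ⟨W e t k, .inr ⟨e, he, by unfold W; split_ifs <;> simp⟩, h ▸ W_self e t ⟨k, hk⟩⟩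
    · exact ⟨_, .inl ⟨_, a, ha, h, rfl⟩, by simp [sg]⟩
  refine ⟨M, m1, m2, fun y hy z hz t e => ?_, fun x hx => ?_⟩
  · have a := cl y hy t (t - ⟨_, (m1 y hy t).1⟩) (by simp)
    have b := cl z hz t (t - ⟨_, (m1 y hy t).1⟩) (by simp [e])
    rw [← e] at b
    rcases a with a | ⟨f, hf, a⟩ <;> rcases b with b | ⟨g, hg, b⟩
    · exact a.2.trans b.2.symm
    · exact (a.1 ⟨g, hg, b.1⟩).elim
    · exact (b.1 ⟨f, hf, a.1⟩).elim
    · exact a.2.trans (k2 f hf g hg _ (a.1.trans b.1.symm) ▸ b.2.symm)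
  by_contra hn
  push Not at hn
  have mem : ∀ e ∈ T, ∀ t k, W e t k ∈ M := fun e he t k => .inr ⟨e, he, by unfold W; split_ifs <;> simp⟩
  have st : ∀ t u : Fin 3, (t - u).val = (x t).1 →
      Pf (fun t => kP ck t) (fun t => kS t) o t x (sg u (x t).2) ∨
      ∃ e ∈ T, e u = (x t).2 ∧ Pf (fun t => kP ck t) (fun t => kS t) o t x (W e t (x t).1) := fun t u hu => by
    obtain ⟨y, hy, e⟩ := m2 t _ (hx t)
    rcases e ▸ cl y hy t u (e ▸ hu) with a | ⟨f, hf, a⟩
    · exact .inl (a.2 ▸ hn t y hy e)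
    · exact .inr ⟨f, hf, a.1, a.2 ▸ hn t y hy e⟩
  have c0 : ∀ t, (x t).1 = 0 → (x (t + 1)).1 = 0 ∧ ck t (x t).2 (x (t + 1)).2 < 2 := fun t h0 => by
    have := h2 t (x t).2 (x (t + 1)).2
    rcases st t t (by simp [h0]) with a | ⟨e, he, a, b⟩
    · simp only [Pf, kP, kS, sg, h0, if_true, add_sub_cancel_left] at a
      split_ifs at a <;> simp_all <;> omega
    · have := (k1 e he t).2
      simp only [Pf, kP, W, co, h0, if_true, ← a] at b
      rw [← a]
      rcases b with b | b | b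
      · split_ifs at b <;> omega
      · split_ifs at b <;> omega
      · rw [b.1]; exact ⟨rfl, this⟩
  have c1 : ∀ t u : Fin 3, (x t).1 ≠ 0 → (t - u).val = (x t).1 →
      ∃ e ∈ T, e u = (x t).2 ∧ Pf (fun t => kP ck t) (fun t => kS t) o t x (W e t (x t).1) := fun t u h0 hu =>
    (st t u hu).resolve_left fun a => by
      have e : sg u (x t).2 t = x t := Prod.ext hu rfl
      simp only [Pf, kP, kS, if_neg h0, sg1, sg2, e, if_true] at a
      rcases a with a | ⟨a, b⟩ | ⟨-, a | ⟨a, b⟩⟩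
      · omega
      · split_ifs at a with c <;> simp_all
      · omega
      · split_ifs at a with c <;> simp_all
  by_cases h0 : ∃ t, (x t).1 = 0
  · obtain ⟨t, h0⟩ := h0
    have a1 := (c0 t h0).1
    have a2 := (c0 _ a1).1
    have a : x = co fun s => (x s).2 :=
      ext3 t (Prod.ext h0 rfl) (Prod.ext a1 rfl) (Prod.ext (by simpa [add_assoc, co] using a2) rfl)
    generalize (fun s => (x s).2) = f at a
    subst a
    rcases k3 f fun s => ⟨(hx s).2, (c0 s rfl).2⟩ with h | ⟨s, e, he, h, h'⟩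
    · simpa [Pf, W] using hn 0 _ (mem f h 0 0) rfl
    · have := hn s _ (mem e he 0 0) (by simp [W, co, h])
      simp only [Pf, W, co, kP, if_true, ← h, Prod.mk.injEq, true_and] at this h'
      rcases this with a | a | a
      · omega
      · omega
      · rw [a.1] at h'; omega
  push Not at h0
  have b0 := (hx 0).1
  have b1 := (hx 1).1
  have := h0 0; have := h0 1; have := h0 2
  by_cases d1 : (x 1).1 = 1
  · obtain ⟨e, he, a, b⟩ := c1 1 0 (h0 1) (by simp [d1])
    have e1 : x 1 = (1, e 0) := Prod.ext d1 a.symm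
    simp [Pf, W, t1, kP, kS, e1] at b
    have e2 : x 2 = (2, e 0) := by grind
    have := hn 2 _ (mem e he 1 1) (by simp [W, t1, e2])
    simp [Pf, W, t1, kP, kS, e2] at this
    grind
  by_cases d0 : (x 0).1 = 1
  · obtain ⟨e, he, a, b⟩ := c1 0 2 (h0 0) d0.symm
    have e1 : x 0 = (1, e 2) := Prod.ext d0 a.symm
    simp [Pf, W, t2, kP, kS, e1] at b
    have e2 : x 1 = (2, e 2) := by grind
    have := hn 1 _ (mem e he 0 1) (by simp [W, t2, e2])
    simp [Pf, W, t2, kP, kS, e2] at this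
    grind
  obtain ⟨e, he, a, b⟩ := c1 0 1 (h0 0) (by simp; omega)
  have e1 : x 0 = (2, e 1) := Prod.ext (by simp; omega) a.symm
  simp [Pf, W, t1, kP, kS, e1] at b
  grind

end Pool.Agent.H38.Lex
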