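import Pool.Agent.H38.Lex.Gen

/-!
NP-hardness for lexicographically cyclic preferences.
-/

namespace Pool.Agent.H38.Lex

open Pool.Agent.H38.NP Pool.Agent.H36.Gr

abbrev T3 := ℕ × ℕ × ℕ

def nx (K u : ℕ) : ℕ := if u + 1 = K then 0 else u + 1

section
variable (K m : ℕ) (lv lb : ℕ → ℕ)

def od (d : T3) : Prop := d.2.2 < 3 * m ∧ d.2.1 = lv d.2.2 ∧ d.1 = 2 * lb d.2.2

def R0 (t : ℕ) (a b : T3) : Prop :=
  (a.1 = 0 ∧ t ≠ 1 ∧ b = a) ∨ (a.1 = 0 ∧ t = 1 ∧ b = (2, a.2)) ∨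
  (a.1 = 2 ∧ t = 2 ∧ b = (0, a.2.1, nx K a.2.2)) ∨
  (a.1 = 1 ∧ a.2.1 < m ∧ ((t = 0 ∧ ((a.2.2 = 0 ∧ b = a) ∨ (0 < a.2.2 ∧ a.2.2 < 3 ∧ b = (1, a.2.1, 1)))) ∨
    (t = 1 ∧ ((a.2.2 = 0 ∧ od m lv lb b ∧ b.2.2 = 3 * a.2.1 + 1) ∨
      (0 < a.2.2 ∧ a.2.2 < 3 ∧ b = (1, a.2.1, 0)))) ∨
    (t = 2 ∧ a.2.2 = 0 ∧ b = a)))

def R1 (t : ℕ) (a b : T3) : Prop :=
  (a.1 = 0 ∧ t = 0 ∧ a = (b.1, b.2.1, nx K b.2.2)) ∨ (a.1 = 0 ∧ t = 1 ∧ b = a) ∨
  (t = 2 ∧ od m lv lb a ∧ b = (1, a.2.2 / 3, (a.2.2 % 3 + 1) / 2)) ∨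
  (a.1 = 1 ∧ a.2.1 < m ∧ ((t ≠ 1 ∧ a.2.2 = 0 ∧ b = (1, a.2.1, 2)) ∨ (t = 0 ∧ a.2.2 = 1 ∧ b = (1, a.2.1, 0)) ∨
    (t = 1 ∧ a.2.2 < 2 ∧ od m lv lb b ∧ b.2.2 = 3 * a.2.1 + 2 * a.2.2)))

instance (d) : Decidable (od m lv lb d) := by unfold od; infer_instance
instance (t a b) : Decidable (R0 K m lv lb t a b) := by unfold R0; infer_instance
instance (t a b) : Decidable (R1 K m lv lb t a b) := by unfold R1; infer_instance

def ck (t : ℕ) (a b : T3) : ℕ := if R0 K m lv lb t a b then 0 else if R1 K m lv lb t a b then 1 else 3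

def VC (a : T3) : Prop := a.1 < 3 ∧ a.2.1 < K ∧ a.2.2 < K

def ed (x : T3) : Fin 3 → T3 :=
  if x.1 = 0 then ![x, x, x] else if x.1 = 1 then ![(0, x.2.1, nx K x.2.2), (0, x.2), (2, x.2)]
  else if x.1 < 5 then ![(1, x.2.1, (x.1 - 1) / 2), (1, x.2.1, (x.1 - 2) / 2),
    (2 * lb (3 * x.2.1 + (x.1 - 2)), lv (3 * x.2.1 + (x.1 - 2)), 3 * x.2.1 + (x.1 - 2))]
  else ![(1, x.2.1, 12 - 2 * x.1), (1, x.2.1, x.1 - 4), (1, x.2.1, 0)]

def rho (r : ℕ) : Fin 3 → ℕ :=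
  if r = 0 then ![0, 1, 0] else if r = 1 ∨ r = 6 then ![1, 0, 0] else if r = 3 then ![1, 0, 1]
  else if r = 5 then ![0, 0, 1] else ![0, 1, 1]

def VE (x : T3) : Prop :=
  (x.1 < 2 ∧ x.2.1 < K ∧ x.2.2 < K) ∨ (2 ≤ x.1 ∧ x.1 < 7 ∧ x.2.1 < m ∧ x.2.2 = 0)

def Dm (x y : T3) : Prop :=
  (x.1 = 0 ∧ y = (1, x.2)) ∨ (x.1 = 1 ∧ y = (0, x.2.1, nx K x.2.2)) ∨
  (2 ≤ x.1 ∧ y = ((x.1 - 1) % 5 + 2, x.2.1, 0)) ∨
  (2 ≤ x.1 ∧ x.1 < 5 ∧ y.2.2 = 3 * x.2.1 + (x.1 - 2) ∧ y.1 = lb y.2.2 ∧ y.2.1 = lv y.2.2)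

def KD (Z : T3 → Prop) : Prop :=
  ∀ x, VE K m x → (Z x ∨ ∃ y, Dm K lv lb x y ∧ Z y) ∧ ∀ y, Dm K lv lb x y → Z x → ¬ Z y
end

variable {K m : ℕ} {lv lb : ℕ → ℕ} (hK : 3 * m + 3 ≤ K) (hv : ∀ u < 3 * m, lv u < K) (hb : ∀ u, lb u < 2)

theorem nx_spec (K u) : (u + 1 = K ∧ nx K u = 0) ∨ (u + 1 ≠ K ∧ nx K u = u + 1) := by
  unfold nx; split_ifs <;> omega

include hK hv hb

theorem ed_spec {x} (h : VE K m x) (t : Fin 3) : VC K (ed K lv lb x t) ∧
    ck K m lv lb t (ed K lv lb x t) (ed K lv lb x (t + 1)) = rho x.1 t := by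
  obtain ⟨r, i, u⟩ := x
  have := nx_spec K u
  simp only [VE] at h
  have := hv (3 * i); have := hv (3 * i + 1); have := hv (3 * i + 2)
  have := hb (3 * i); have := hb (3 * i + 1); have := hb (3 * i + 2)
  have : r < 7 := by omega
  interval_cases r <;> fin_cases t <;> simp [ed, VC, ck, rho, R0, R1, od] <;>
    first | omega | (refine ⟨by omega, ?_⟩; split_ifs <;> omega)

omit hv in
theorem cls {e} (h : Acc (VC K) (ck K m lv lb) e) : ∃ x, VE K m x ∧ e = ed K lv lb x := by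
  have h0 := h 0; have h1 := h 1; have h2 := h 2
  have k : ∀ t a b, ck K m lv lb t a b < 2 → R0 K m lv lb t a b ∨ R1 K m lv lb t a b := fun t a b h => by
    unfold ck at h; split_ifs at h <;> simp_all
  have a0 := k _ _ _ h0.2; have a1 := k _ _ _ h1.2; have a2 := k _ _ _ h2.2
  replace h0 := h0.1; replace h1 := h1.1; replace h2 := h2.1
  obtain ⟨⟨a, b, c⟩, ⟨a', b', c'⟩, ⟨a'', b'', c''⟩, rfl⟩ : ∃ x y z, e = ![x, y, z] :=
    ⟨e 0, e 1, e 2, by ext1 t; fin_cases t <;> rfl⟩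
  have := nx_spec K c'; have := nx_spec K c''; have := hb c''
  simp [R0, R1, od, VC] at a0 a1 a2 h0 h1 h2
  clear h k
  by_cases d : a = 0
  · by_cases d' : a'' = 0
    · exact ⟨(0, b, c), by simp [VE]; omega, by simp [ed]; omega⟩
    · obtain rfl : c' = c'' := by omega
      exact ⟨(1, b, c'), by simp [VE]; omega, by simp [ed]; omega⟩
  by_cases d' : a'' = 1
  · exact ⟨(4 + c', b, 0), by simp [VE]; omega, by
      rw [ed, if_neg (by simp), if_neg (by simp; omega), if_neg (by simp; omega)]; simp; omega⟩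
  · refine ⟨(2 + c'' % 3, b, 0), by simp [VE]; omega, ?_⟩
    rw [ed, if_neg (by simp), if_neg (by simp; omega), if_pos (by simp; omega)]
    have : 3 * b + c'' % 3 = c'' := by omega
    simp [this]; omega

theorem dm {x y} (h : VE K m x) (d : Dm K lv lb x y) : VE K m y ∧
    ∃ t, ed K lv lb y t = ed K lv lb x t ∧ rho y.1 t < rho x.1 t := by
  obtain ⟨r, i, u⟩ := x
  obtain ⟨r', i', u'⟩ := y
  have := nx_spec K u
  simp only [VE, Dm, Prod.mk.injEq] at h d ⊢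
  rcases d with ⟨rfl, rfl, rfl, rfl⟩ | ⟨rfl, rfl, rfl, rfl⟩ | ⟨d, rfl, rfl, rfl⟩ | ⟨d, d', e, rfl, rfl⟩
  · exact ⟨by omega, 1, rfl, by simp [rho]⟩
  · exact ⟨by omega, 0, rfl, by simp [rho]⟩
  · refine ⟨by omega, ?_⟩
    have : r < 7 := by omega
    interval_cases r
    exacts [⟨1, by simp [ed, rho]⟩, ⟨0, by simp [ed, rho]⟩, ⟨1, by simp [ed, rho]⟩,
      ⟨2, by simp [ed, rho]⟩, ⟨0, by simp [ed, rho]⟩]
  · have := hv u' (by omega); have := hb u'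
    refine ⟨by omega, 2, ?_, ?_⟩
    · simp only [ed, ← e]
      split_ifs <;> simp <;> omega
    · generalize lb u' = z at *
      interval_cases r <;> interval_cases z <;> simp [rho]

omit hK hv hb in
theorem sh {x y t} (h : VE K m x) (h' : VE K m y) (e : ed K lv lb y t = ed K lv lb x t) :
    y = x ∨ (Dm K lv lb x y ∧ rho y.1 t < rho x.1 t) ∨ (Dm K lv lb y x ∧ rho x.1 t < rho y.1 t) := by
  obtain ⟨r, i, u⟩ := x
  obtain ⟨r', i', u'⟩ := y
  have := nx_spec K u; have := nx_spec K u'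
  simp only [VE] at h h'
  have : r < 7 := by omega
  have : r' < 7 := by omega
  interval_cases r <;> interval_cases r' <;> fin_cases t <;> simp [ed, rho, Dm] at e ⊢ <;>
    first | omega | (obtain ⟨e1, e2, rfl⟩ := e; omega)

theorem ker_kd {T} (h : Ker (VC K) (ck K m lv lb) 0 T) : KD K m lv lb fun x => ed K lv lb x ∈ T := by
  obtain ⟨k1, k2, k3⟩ := h
  refine fun x hx => ⟨?_, fun y d a b => ?_⟩
  · have r2 : ∀ r t, rho r t < 2 := fun r t => by unfold rho; split_ifs <;> fin_cases t <;> simp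
    rcases k3 (ed K lv lb x) fun t => ⟨(ed_spec hK hv hb hx t).1, (ed_spec hK hv hb hx t).2 ▸ r2 _ _⟩ with
      h | ⟨t, e, he, a, b⟩
    · exact .inl h
    obtain ⟨y, hy, rfl⟩ := cls hK hb (k1 e he)
    rw [(ed_spec hK hv hb hx t).2, (ed_spec hK hv hb hy t).2] at b
    rcases sh hx hy a with rfl | c | c
    · exact .inl he
    · exact .inr ⟨y, c.1, he⟩
    · omega
  · obtain ⟨hy, t, c, d⟩ := dm hK hv hb hx d
    rw [← (ed_spec hK hv hb hx t).2, ← (ed_spec hK hv hb hy t).2, k2 _ b _ a t c] at d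
    omega

theorem kd_ker {Z} (h : KD K m lv lb Z) :
    Ker (VC K) (ck K m lv lb) 1 {e | ∃ x, VE K m x ∧ Z x ∧ e = ed K lv lb x} := by
  refine ⟨?_, ?_, fun f hf => ?_⟩
  · rintro _ ⟨x, hx, -, rfl⟩ t
    refine ⟨(ed_spec hK hv hb hx t).1, (ed_spec hK hv hb hx t).2 ▸ ?_⟩
    unfold rho; split_ifs <;> fin_cases t <;> simp
  · rintro _ ⟨x, hx, a, rfl⟩ _ ⟨y, hy, b, rfl⟩ t e
    rcases sh hy hx e with rfl | c | c
    · rfl
    · exact ((h y hy).2 x c.1 b a).elim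
    · exact ((h x hx).2 y c.1 a b).elim
  · obtain ⟨x, hx, rfl⟩ := cls hK hb hf
    rcases (h x hx).1 with a | ⟨y, d, a⟩
    · exact .inl ⟨x, hx, a, rfl⟩
    obtain ⟨hy, t, c, d⟩ := dm hK hv hb hx d
    exact .inr ⟨t, _, ⟨y, hy, a, rfl⟩, c, by rwa [(ed_spec hK hv hb hx t).2, (ed_spec hK hv hb hy t).2]⟩

omit hK hv hb in
theorem five {p q r : Prop} (h : p ∨ q ∨ r) : ∃ z : ℕ → Prop, (z 2 ↔ ¬ p ∧ ¬ z 3) ∧ (z 3 ↔ ¬ q ∧ ¬ z 4) ∧
    (z 4 ↔ ¬ r ∧ ¬ z 5) ∧ (z 5 ↔ ¬ z 6) ∧ (z 6 ↔ ¬ z 2) := by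
  by_cases a : p
  · exact ⟨fun k => k = 6 ∨ (k = 4 ∧ ¬ r) ∨ (k = 3 ∧ ¬ q ∧ r), by simp [a]⟩
  by_cases b : q
  · exact ⟨fun k => k = 2 ∨ k = 5, by simp [a, b]⟩
  · exact ⟨fun k => k = 3 ∨ k = 6, by simp_all⟩

theorem kd_iff : (∃ Z, KD K m lv lb Z) ↔
    ∃ a : ℕ → ℕ, (∀ i, a i < 2) ∧ ∀ c < m, ∃ j < 3, a (lv (3 * c + j)) = lb (3 * c + j) := by
  classical
  constructor
  · rintro ⟨Z, h⟩
    have x0 : ∀ i < K, ∀ u < K, Z (0, i, u) → ¬ Z (1, i, u) := fun i hi u hu =>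
      (h (0, i, u) (by simp [VE, hi, hu])).2 _ (by simp [Dm])
    have x1 : ∀ i < K, ∀ u < K, Z (0, i, u) → Z (0, i, nx K u) := fun i hi u hu a => by
      obtain ⟨y, b, c⟩ := (h (1, i, u) (by simp [VE, hi, hu])).1.resolve_left (x0 i hi u hu a)
      simp [Dm] at b; exact b ▸ c
    have x2 : ∀ i < K, ∀ u d, u + d < K → Z (0, i, u) → Z (0, i, u + d) := fun i hi u d hd a => by
      induction d with
      | zero => exact a
      | succ d ih =>
        have := x1 i hi _ (by omega) (ih (by omega))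
        rwa [nx, if_neg (by omega)] at this
    refine ⟨fun i => if Z (0, i, 0) then 0 else 1, fun i => by simp only; split_ifs <;> omega,
      fun c hc => ?_⟩
    by_contra hn
    push Not at hn
    have x3 : ∀ j < 3, ¬ Z (lb (3 * c + j), lv (3 * c + j), 3 * c + j) := fun j hj a => by
      have := hn j hj
      have hi := hv (3 * c + j) (by omega)
      have h2 := hb (3 * c + j)
      generalize lb (3 * c + j) = b at *
      interval_cases b
      · have e := x1 _ hi _ (by omega) (x2 _ hi _ (K - 1 - (3 * c + j)) (by omega) a)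
        rw [nx, if_pos (by omega)] at e
        simp [e] at this
      · have e : Z (0, lv (3 * c + j), 0) := by simpa using this
        exact x0 _ hi _ (by omega) (by simpa using x2 _ hi 0 (3 * c + j) (by omega) e) a
    have x4 : ∀ r, 2 ≤ r → r < 7 → (Z (r, c, 0) ↔ ¬ Z ((r - 1) % 5 + 2, c, 0)) := fun r a b => by
      have := h (r, c, 0) (by simp [VE]; omega)
      refine ⟨this.2 _ (by simp [Dm, a]), fun e => this.1.resolve_right ?_⟩
      rintro ⟨⟨y1, y2, y3⟩, d, f⟩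
      simp only [Dm, Prod.mk.injEq] at d
      rcases d with d | d | ⟨-, rfl, rfl, rfl⟩ | ⟨-, d, rfl, rfl, rfl⟩
      · omega
      · omega
      · exact e f
      · exact x3 _ (by omega) f
    have a2 := x4 2 (by omega) (by omega); have a3 := x4 3 (by omega) (by omega)
    have a4 := x4 4 (by omega) (by omega); have a5 := x4 5 (by omega) (by omega)
    have a6 := x4 6 (by omega) (by omega)
    simp only [Nat.reduceSub, Nat.reduceMod, Nat.reduceAdd] at a2 a3 a4 a5 a6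
    tauto
  · rintro ⟨a, ha, h⟩
    choose! z hz using fun c hc => five (p := a (lv (3 * c)) = lb (3 * c))
      (q := a (lv (3 * c + 1)) = lb (3 * c + 1)) (r := a (lv (3 * c + 2)) = lb (3 * c + 2)) (by
        obtain ⟨j, hj, e⟩ := h c hc
        interval_cases j <;> simp_all)
    refine ⟨fun x => if x.1 < 2 then a x.2.1 = x.1 else z x.2.1 x.1, fun ⟨r, i, u⟩ hx => ?_⟩
    have := ha i; have := hb (3 * i); have := hb (3 * i + 1); have := hb (3 * i + 2)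
    simp only [VE] at hx
    have : r < 7 := by omega
    have := hz i
    interval_cases r <;> simp [Dm, Prod.ext_iff, or_and_right, exists_or, and_assoc, or_imp, forall_and, *] <;>
      grind

omit hK hv hb

def kk (φ : F3) : ℕ := 3 * φ.length + 3 + ((List.range (3 * φ.length)).map fun u => (litAt φ u).1).sum

def ckf (φ : F3) := ck (kk φ) φ.length (fun u => (litAt φ u).1) fun u => (litAt φ u).2.toNat

def ags (K : ℕ) : List (ℕ × T3) :=
  (List.range 3).product ((List.range 3).product ((List.range K).product (List.range K)))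

def inst (φ : F3) : Inst := mkI (ags (kk φ)) (kP (ckf φ)) kS

theorem pt_tab {α A : Type} [Enc α] [Enc A] {U : α → List A} {f : α → ℕ → A → ℕ → ℕ} (hU : PT U)
    (hf : PT fun p : α × ℕ × A × ℕ => f p.1 p.2.1 p.2.2.1 p.2.2.2) : PT fun a => tab (U a) (f a) :=
  PT.map (PT.map (PT.map (hf.comp (g := fun p : ((α × ℕ) × A) × ℕ => (p.1.1.1, p.1.1.2, p.1.2, p.2))
    (by fun_prop)) (by fun_prop)) (by fun_prop)) (PT.const _)

theorem pt_mkI {α A : Type} [Enc α] [Enc A] [Inhabited A] {U : α → List A} {P S : α → ℕ → A → A → ℕ}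
    (hU : PT U) (hP : PT fun p : α × ℕ × A × A => P p.1 p.2.1 p.2.2.1 p.2.2.2)
    (hS : PT fun p : α × ℕ × A × A => S p.1 p.2.1 p.2.2.1 p.2.2.2) : PT fun a => mkI (U a) (P a) (S a) := by
  have g : PT fun p : α × ℕ × A × ℕ => (p.1, p.2.1, p.2.2.1, (U p.1).getD p.2.2.2 default) := by fun_prop
  exact hU.length.mk (PT.mk (pt_tab hU (PT.add (PT.mul (hP.comp g) (by fun_prop)) (by fun_prop)))
    (pt_tab hU (PT.add (PT.mul (hS.comp g) (by fun_prop)) (by fun_prop))))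

theorem pt_inst : PT inst := by
  have : PT kk := by unfold kk; fun_prop
  have h : PT fun p : F3 × ℕ × T3 × T3 => ckf p.1 p.2.1 p.2.2.1 p.2.2.2 := by
    unfold ckf ck R0 R1 od nx; fun_prop
  have h' : PT fun p : F3 × ℕ × (ℕ × T3) × ℕ × T3 => kP (ckf p.1) p.2.1 p.2.2.1 p.2.2.2 := by
    unfold kP; fun_prop
  have hu : PT fun φ => ags (kk φ) := by unfold ags; fun_prop
  exact pt_mkI (S := fun _ => kS) hu h' (by unfold kS; fun_prop)

theorem lex_nph : NPH Valid HasStable := by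
  refine sat3_nph.reduce inst pt_inst fun φ _ => ⟨valid_mkI ?_ _ _, ?_⟩
  · have : 0 < kk φ := by unfold kk; omega
    have e : (ags (kk φ)).length = 3 * (3 * (kk φ * kk φ)) := by
      simp [ags, List.product]; ring
    nlinarith [Nat.mul_pos this this]
  have hK : 3 * φ.length + 3 ≤ kk φ := Nat.le_add_right _ _
  have hv : ∀ u < 3 * φ.length, (litAt φ u).1 < kk φ := fun u hu => by
    have := List.le_sum_of_mem (List.mem_map_of_mem (f := fun u => (litAt φ u).1) (List.mem_range.2 hu))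
    unfold kk; omega
  have hb : ∀ u, (litAt φ u).2.toNat < 2 := fun u => Bool.toNat_lt _
  have h2 : ∀ t a b, ckf φ t a b ≠ 2 := fun t a b => by unfold ckf ck; split_ifs <;> omega
  have e : (· ∈ ags (kk φ)) = fun x => x.1 < 3 ∧ VC (kk φ) x.2 := by
    funext ⟨a, b, c, d⟩; simp [ags, VC]
  rw [inst, stable_iff (U := ags _) (List.nodup_range.product (List.nodup_range.product
    (List.nodup_range.product List.nodup_range))), e, sat3_iff_litAt]
  constructor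
  · rintro ⟨a, h⟩
    obtain ⟨Z, hZ⟩ := (kd_iff hK hv hb).2 ⟨fun i => (a i).toNat, fun i => Bool.toNat_lt _, fun c hc =>
      (h c hc).imp fun j hj => ⟨hj.1, congrArg _ hj.2⟩⟩
    exact gcomplete h2 (kd_ker hK hv hb hZ)
  · rintro ⟨M, h⟩
    obtain ⟨T, h⟩ := gsound h2 h
    obtain ⟨a, ha, h⟩ := (kd_iff hK hv hb).1 ⟨_, ker_kd hK hv hb h⟩
    refine ⟨fun i => decide (a i = 1), fun c hc => (h c hc).imp fun j hj => ⟨hj.1, ?_⟩⟩
    simp only [hj.2]
    cases (litAt φ (3 * c + j)).2 <;> rfl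

end Pool.Agent.H38.Lex
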